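import Pool.Agent.H83.UE.Targets3
import Pool.Agent.H67.UDA.LOG

/-!
# Row LGE of the board udb_modules: every rational map is good away from a finite exceptional set
-/

set_option autoImplicit false

open Polynomial MeasureTheory Filter Topology Set
open scoped OnePoint ComplexConjugate ComplexOrder Laplacian ENNReal

open Pool.Agent.H83.UE Pool.Agent.H67.UDA

namespace Pool.Agent.H39.UDB.LGE

/-- the sixth iterate has the weighted Lojasiewicz property -/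
theorem lojW_six {d : ℕ} (hd : 2 ≤ d) (h4 : T_LJE) (g : RatMap d) (E : Finset (OnePoint ℂ))
    (hE1 : ∀ e ∈ E, ∃ c : ℂ, c ≠ 0 ∧ ∀ w, wd (g.F^[6] w) (vec e) = c * wd w (vec e) ^ d ^ 6)
    (hE2 : ∀ z x : ℂ × ℂ, z ≠ 0 → x ≠ 0 → omh E z ≠ 0 → ∀ c : ℂ,
      ¬ ∀ w, wd (g.F^[6] w) z = c * wd w x ^ d ^ 6) :
    LojW (d ^ 6) (g.F^[6]) E := by
  have hd1 : 1 ≤ d := by omega
  have hD : 2 ≤ d ^ 6 := le_trans hd (Nat.le_self_pow (by norm_num) d)
  have hit := it_F hd1 g 6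
  rw [hit] at hE1 hE2 ⊢
  refine h4 (d ^ 6) _ _ hD (pf_IT d hd1 g 6).1 (pf_IT d hd1 g 6).2.1 ?_ ?_ E hE1 hE2
  · intro w hw
    have h := Fit_ne hd1 g 6 w hw
    rw [hit] at h
    exact h
  · intro z hz
    obtain ⟨w, hw⟩ := exists_wd_ne hd1 g 6 z hz
    rw [hit] at hw
    exact ⟨w, hw⟩

theorem pf_LGE (_h1 : T_IT) (_h2 : T_FN) (h3 : T_EXC) (h4 : T_LJE) (h5 : T_RCE) (h6 : T_LJ0) :
    T_LGE := by
  intro d hd g
  obtain ⟨E, hE, hE1, hE2⟩ := h3 d hd g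
  have hd1 : 1 ≤ d := by omega
  have hdr : (2 : ℝ) ≤ d := by exact_mod_cast hd
  have hd6 : (64 : ℝ) ≤ (d : ℝ) ^ 6 := by
    have : (2 : ℝ) ^ 6 ≤ (d : ℝ) ^ 6 := pow_le_pow_left₀ (by norm_num) hdr 6
    linarith
  have hd6n : 64 ≤ d ^ 6 := by exact_mod_cast hd6
  have hcast : ((d ^ 6 - 1 : ℕ) : ℝ) = (d : ℝ) ^ 6 - 1 := by
    rw [Nat.cast_sub (by omega)]
    push_cast
    ring
  -- the exponent
  obtain ⟨κ, hκ0, hκ6⟩ : ∃ κ : ℝ, 0 ≤ κ ∧ κ ^ 6 = (d : ℝ) ^ 6 - 1 / 2 := by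
    refine ⟨((d : ℝ) ^ 6 - 1 / 2) ^ ((1 : ℝ) / 6), Real.rpow_nonneg (by linarith) _, ?_⟩
    rw [← Real.rpow_natCast, ← Real.rpow_mul (by linarith)]
    norm_num
  have hκ1 : 1 ≤ κ := by
    by_contra hlt
    rw [not_le] at hlt
    have : κ ^ 6 ≤ 1 := pow_le_one₀ hκ0 hlt.le
    linarith
  have hκd : κ < d := by
    by_contra hge
    rw [not_lt] at hge
    have : (d : ℝ) ^ 6 ≤ κ ^ 6 := pow_le_pow_left₀ (by linarith) hge 6
    linarith
  refine ⟨E, κ, hE, hκ1, hκd, fun R => ?_⟩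
  have hcF : Continuous g.F := cont_F g
  have hL := lojW_six hd h4 g E hE1 hE2
  choose C hC0 hC using fun r : ℕ => h5 (d ^ 6) (d ^ r) (g.F^[6]) (g.F^[r]) E (by omega)
    (Nat.one_le_pow r d hd1) (hcF.iterate 6) (fun w hw => Fit_ne hd1 g 6 w hw) (hcF.iterate r)
    (fun w hw => Fit_ne hd1 g r w hw) hL (loj_pow hd1 h6 g r) R
  set q : ℝ := ((d : ℝ) ^ 6 - 1) / ((d : ℝ) ^ 6 - 1 / 2) with hq
  have hq0 : 0 ≤ q := div_nonneg (by linarith) (by linarith)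
  have hq1 : q < 1 := by
    rw [hq, div_lt_one (by linarith)]
    linarith
  have hM1 : 1 ≤ 1 / (1 - q) := by
    rw [le_div_iff₀ (by linarith)]
    linarith
  have hS0 : 0 ≤ ∑ r ∈ Finset.range 6, C r := Finset.sum_nonneg fun r _ => hC0 r
  refine ⟨(∑ r ∈ Finset.range 6, C r) * (1 / (1 - q)), mul_nonneg hS0 (by linarith),
    fun n z hz hz2 => ?_⟩
  obtain ⟨j, r, hr, hn⟩ : ∃ j r, r < 6 ∧ n = 6 * j + r :=
    ⟨n / 6, n % 6, Nat.mod_lt _ (by norm_num), by omega⟩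
  have hiter : ∀ w, g.F^[n] w = (g.F^[6])^[j] (g.F^[r] w) := by
    intro w
    rw [hn, Function.iterate_add_apply, Function.iterate_mul]
  simp only [hiter]
  refine le_trans (hC r j z hz hz2) (ENNReal.ofReal_le_ofReal ?_)
  have hCr : C r ≤ ∑ r ∈ Finset.range 6, C r :=
    Finset.single_le_sum (fun r _ => hC0 r) (Finset.mem_range.2 hr)
  have hA := abs_nonneg (Real.log (omh E z))
  have hkn : κ ^ (6 * j) ≤ κ ^ n := pow_le_pow_right₀ hκ1 (by omega)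
  have hk : ((j : ℝ) + 1) * ((d ^ 6 - 1 : ℕ) : ℝ) ^ j ≤ 1 / (1 - q) * κ ^ (6 * j) := by
    rw [hcast, pow_mul, hκ6]
    have hg := geom_bound hq0 hq1 j
    have hpos : 0 < ((d : ℝ) ^ 6 - 1 / 2) ^ j := pow_pos (by linarith) j
    have h8 : ((d : ℝ) ^ 6 - 1) ^ j = q ^ j * ((d : ℝ) ^ 6 - 1 / 2) ^ j := by
      rw [← mul_pow, hq, div_mul_cancel₀ _ (by linarith)]
    rw [h8, ← mul_assoc]
    exact mul_le_mul_of_nonneg_right hg hpos.le
  have hk0 : 0 ≤ κ ^ (6 * j) := pow_nonneg hκ0 _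
  calc C r * (((j : ℝ) + 1) * ((d ^ 6 - 1 : ℕ) : ℝ) ^ j + |Real.log (omh E z)|)
      ≤ C r * (1 / (1 - q) * (κ ^ n + |Real.log (omh E z)|)) := by
        refine mul_le_mul_of_nonneg_left ?_ (hC0 r)
        rw [mul_add]
        refine add_le_add (hk.trans (mul_le_mul_of_nonneg_left hkn (by linarith))) ?_
        exact le_mul_of_one_le_left hA hM1
    _ ≤ (∑ r ∈ Finset.range 6, C r) * (1 / (1 - q) * (κ ^ n + |Real.log (omh E z)|)) := by
        refine mul_le_mul_of_nonneg_right hCr (mul_nonneg (by linarith) (add_nonneg ?_ hA))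
        exact le_trans hk0 hkn
    _ = _ := by ring

end Pool.Agent.H39.UDB.LGE
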